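import Pool.Agent.X326.AD.Par

/-!
# The parametrization of the `A`-discriminant is birational
-/

set_option autoImplicit false

universe u

open MvPolynomial

namespace Pool.Agent.X326.AD

section

variable {k : Type u} [Field k] {m n : ℕ} (a : Fin m → Fin n → ℕ)

lemma totalDegree_pderiv_lt {σ : Type} (F : MvPolynomial σ k) (i : σ) (h : pderiv i F ≠ 0) :
    (pderiv i F).totalDegree < F.totalDegree := by
  classical
  obtain ⟨α, hα, h1'⟩ := Finset.exists_mem_eq_sup (pderiv i F).support (support_nonempty.2 h)
    (fun s => s.sum fun _ e => e)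
  have h1 : (pderiv i F).totalDegree = α.sum fun _ e => e := h1'
  have h2 : coeff (α + Finsupp.single i 1) F ≠ 0 := by
    intro h3
    have h4 := coeff_pderiv F (i := i) α
    rw [h3, zero_mul] at h4
    exact mem_support_iff.1 hα h4
  have h3 := le_totalDegree (mem_support_iff.2 h2)
  have h4 : ((α + Finsupp.single i 1).sum fun _ e => e) = (α.sum fun _ e => e) + 1 := by
    rw [Finsupp.sum_add_index' (fun _ => rfl) (fun _ _ _ => rfl), Finsupp.sum_single_index rfl]
  rw [h4] at h3
  rw [h1]
  omega

variable (p : ℕ) [Fact p.Prime] [CharP k p] [PerfectField k]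

include p in
/-- There is an element of the kernel whose derivatives are not all in the kernel. -/
lemma exists_min (hnon : ¬ Function.Injective (phi k a)) :
    ∃ F : MvPolynomial (Fin m) k, phi k a F = 0 ∧ ∃ i, phi k a (pderiv i F) ≠ 0 := by
  classical
  rw [injective_iff_map_eq_zero] at hnon
  push Not at hnon
  obtain ⟨F₀, hF₀, hF₀'⟩ := hnon
  have hex : ∃ N : ℕ, ∃ F : MvPolynomial (Fin m) k, phi k a F = 0 ∧ F ≠ 0 ∧ F.totalDegree = N :=
    ⟨_, F₀, hF₀, hF₀', rfl⟩
  obtain ⟨F, hF, hF0, hFd⟩ := Nat.find_spec hex
  have hmin : ∀ G : MvPolynomial (Fin m) k, phi k a G = 0 → G.totalDegree < F.totalDegree →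
      G = 0 := by
    intro G hG hd
    by_contra hG0
    have h1 := Nat.find_min' hex ⟨G, hG, hG0, rfl⟩
    omega
  refine ⟨F, hF, ?_⟩
  by_contra hcon
  push Not at hcon
  have h1 : ∀ i, pderiv i F = 0 := by
    intro i
    by_contra h
    exact h (hmin _ (hcon i) (totalDegree_pderiv_lt F i h))
  obtain ⟨G, hG⟩ := exists_pow_of_pderiv p F h1
  have hG0 : G ≠ 0 := by
    rintro rfl
    rw [zero_pow (Fact.out : p.Prime).ne_zero] at hG
    exact hF0 hG
  have hφG : phi k a G = 0 := by
    rw [hG, map_pow] at hF
    exact eq_zero_of_pow_eq_zero hF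
  have hdeg : F.totalDegree = G.totalDegree + (G ^ (p - 1)).totalDegree := by
    have h2 : F = G * G ^ (p - 1) := by
      rw [hG, ← pow_succ']
      congr 1
      have := (Fact.out : p.Prime).two_le
      omega
    rw [h2]
    exact totalDegree_mul_of_isDomain hG0 (pow_ne_zero _ hG0)
  by_cases hd : G.totalDegree < F.totalDegree
  · exact hG0 (hmin G hφG hd)
  · have h2 : (G ^ (p - 1)).totalDegree = 0 := by omega
    have h3 : G.totalDegree = 0 := by
      have h4 : G ^ (p - 1) = G * G ^ (p - 2) := by
        rw [← pow_succ']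
        congr 1
        have := (Fact.out : p.Prime).two_le
        omega
      rw [h4, totalDegree_mul_of_isDomain hG0 (pow_ne_zero _ hG0)] at h2
      omega
    rw [totalDegree_eq_zero_iff_eq_C] at h3
    rw [h3] at hφG hG0
    have h5 : phi k a (C (coeff 0 G)) = C (coeff 0 G) := by simp [phi, algebraMap_eq]
    rw [h5] at hφG
    have h6 : coeff 0 G = 0 := C_eq_zero.1 hφG
    rw [h6, C_0] at hG0
    exact hG0 rfl

include p in
/-- The Gauss map inverts the parametrization. -/
theorem gauss (hm : 0 < m) {z₀ : Fin m → k} (hz₀ : z₀ ∈ LL k a) (hH : (Hs k a z₀).det ≠ 0) :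
    ∃ G : Fin m → MvPolynomial (Fin m) k, (∀ i, phi k a (G i) ≠ 0) ∧
      ∀ i l, phi k a (G i) * sB k a i = phi k a (G l) * sB k a l := by
  classical
  have hnon : ¬ Function.Injective (phi k a) := by
    intro hinj
    have h1 : AlgebraicIndependent k (xB k a) := hinj
    have h2 := h1.lift_cardinalMk_le_trdeg
    rw [MvPolynomial.trdeg_of_isDomain, Cardinal.mk_fin, Cardinal.mk_sum, Cardinal.mk_fin,
      Cardinal.mk_fin] at h2
    have h3 : m ≤ dd k a + n := by
      have h4 : ((m : ℕ) : Cardinal.{u}) ≤ ((dd k a + n : ℕ) : Cardinal.{u}) := by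
        simpa using h2
      exact_mod_cast h4
    have h4 := dd_eq a hm hz₀ hH
    omega
  obtain ⟨F, hF, i₀, hi₀⟩ := exists_min a p hnon
  let K := FractionRing (BB k a)
  let ι : BB k a →ₐ[k] K := IsScalarTower.toAlgHom k (BB k a) K
  have hι : Function.Injective ι := IsFractionRing.injective (BB k a) K
  let G : Fin m → MvPolynomial (Fin m) k := fun i => pderiv i F
  let g : Fin m → K := fun i => ι (phi k a (G i) * sB k a i)
  -- orthogonality with the linear space
  have h1 : ∀ c, ∑ i, (phi k a (G i) * sB k a i) * C (ZZ k a i c) = 0 := by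
    intro c
    have h2 := pderiv_phi a (Sum.inl c) F
    rw [hF, map_zero] at h2
    rw [h2]
    refine Finset.sum_congr rfl fun i _ => ?_
    rw [pderiv_xB_inl]
    ring
  have h2 : ∀ z ∈ LL k a, ∑ i, g i * algebraMap k K (z i) = 0 := by
    intro z hz
    have h3 : ∀ i, g i * algebraMap k K (z i) =
        ∑ c, algebraMap k K ((bb k a).repr ⟨z, hz⟩ c) *
          ι ((phi k a (G i) * sB k a i) * C (ZZ k a i c)) := by
      intro i
      rw [LL_repr a z hz i, map_sum, Finset.mul_sum]
      refine Finset.sum_congr rfl fun c _ => ?_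
      have h4 : ι (C (ZZ k a i c)) = algebraMap k K (ZZ k a i c) := ι.commutes _
      rw [map_mul, map_mul ι (phi k a (G i) * sB k a i), h4]
      ring
    rw [Finset.sum_congr rfl fun i _ => h3 i, Finset.sum_comm]
    refine Finset.sum_eq_zero fun c _ => ?_
    rw [← Finset.mul_sum, ← map_sum, h1 c, map_zero, mul_zero]
  obtain ⟨c, hc⟩ := ann_K a g h2
  -- orthogonality with the torus directions
  have h3 : ∀ j, ∑ i, (phi k a (G i) * sB k a i) * ((a i j : BB k a) * zB k a i) = 0 := by
    intro j
    have h4 := pderiv_phi a (Sum.inr j) F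
    rw [hF, map_zero] at h4
    have h5 := congrArg (fun q => X (Sum.inr j) * q) h4
    simp only [mul_zero, Finset.mul_sum] at h5
    rw [h5]
    refine Finset.sum_congr rfl fun i _ => ?_
    have h6 : X (Sum.inr j) * (phi k a (pderiv i F) * pderiv (Sum.inr j) (xB k a i)) =
        phi k a (pderiv i F) * (X (Sum.inr j) * pderiv (Sum.inr j) (xB k a i)) := by ring
    rw [h6, pderiv_xB_inr, xB]
    change phi k a (pderiv i F) * sB k a i * ((a i j : BB k a) * zB k a i) = _
    ring
  have hdet : (ι.mapMatrix (HB k a)).det ≠ 0 := by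
    rw [← AlgHom.map_det]
    intro h
    exact det_HB a hz₀ hH (hι (by rw [h, map_zero]))
  have h4 : Matrix.vecMul (fun j => c (some j)) (ι.mapMatrix (HB k a)) = 0 := by
    funext l
    change ∑ j, c (some j) * ι (∑ i, (a i j : BB k a) * a i l * zB k a i) = 0
    have h5 := congrArg ι (h3 l)
    rw [map_sum, map_zero] at h5
    have h6 : ∀ i, ι (phi k a (G i) * sB k a i * ((a i l : BB k a) * zB k a i)) =
        c none * ι ((a i l : BB k a) * zB k a i) +
          ∑ j, c (some j) * ι ((a i j : BB k a) * a i l * zB k a i) := by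
      intro i
      rw [map_mul]
      change g i * _ = _
      rw [hc i, add_mul, Finset.sum_mul]
      congr 1
      refine Finset.sum_congr rfl fun j _ => ?_
      rw [mul_assoc, mul_assoc (a i j : BB k a), map_mul ι (a i j : BB k a), map_natCast]
    rw [Finset.sum_congr rfl fun i _ => h6 i, Finset.sum_add_distrib, ← Finset.mul_sum,
      ← map_sum, sum_a_zB, map_zero, mul_zero, zero_add, Finset.sum_comm] at h5
    rw [← h5]
    refine Finset.sum_congr rfl fun j _ => ?_
    rw [map_sum, Finset.mul_sum]
  have h5 := Matrix.eq_zero_of_vecMul_eq_zero hdet h4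
  have h6 : ∀ i, g i = c none := by
    intro i
    rw [hc i]
    have h7 : ∀ j, c (some j) = 0 := fun j => congrFun h5 j
    simp [h7]
  have hsB : ∀ i, sB k a i ≠ 0 := fun i =>
    Finset.prod_ne_zero_iff.2 fun j _ => pow_ne_zero _ (X_ne_zero _)
  have h7 : ∀ i l, phi k a (G i) * sB k a i = phi k a (G l) * sB k a l := by
    intro i l
    apply hι
    exact (h6 i).trans (h6 l).symm
  refine ⟨G, fun i hi => ?_, h7⟩
  have h8 := h7 i i₀
  rw [hi, zero_mul] at h8
  exact mul_ne_zero hi₀ (hsB i₀) h8.symm

/-- the fraction field -/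
abbrev KB (k : Type u) [Field k] {m n : ℕ} (a : Fin m → Fin n → ℕ) : Type u :=
  FractionRing (BB k a)

/-- the inclusion -/
noncomputable def io (k : Type u) [Field k] {m n : ℕ} (a : Fin m → Fin n → ℕ) :
    BB k a →ₐ[k] KB k a :=
  IsScalarTower.toAlgHom k (BB k a) (KB k a)

omit [PerfectField k] in
lemma io_injective : Function.Injective (io k a) := IsFractionRing.injective (BB k a) (KB k a)

include p in
/-- The parametrization is birational. -/
theorem birational (hm : 0 < m) {z₀ : Fin m → k} (hz₀ : z₀ ∈ LL k a) (hH : (Hs k a z₀).det ≠ 0)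
    (hlat : AddSubgroup.closure {e : Fin n → ℤ | ∃ i l, e = fun j => (a i j : ℤ) - a l j} = ⊤) :
    IntermediateField.adjoin k (Set.range fun i => io k a (xB k a i)) = ⊤ := by
  classical
  obtain ⟨G, hG0, hG⟩ := gauss a p hm hz₀ hH
  let F₀ := IntermediateField.adjoin k (Set.range fun i => io k a (xB k a i))
  have hx : ∀ i, io k a (xB k a i) ∈ F₀ := fun i => IntermediateField.subset_adjoin k _ ⟨i, rfl⟩
  have hφ : ∀ P : MvPolynomial (Fin m) k, io k a (phi k a P) ∈ F₀ := by
    intro P
    induction P using MvPolynomial.induction_on with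
    | C c =>
      have h1 : io k a (phi k a (C c)) = algebraMap k _ c := by
        rw [← algebraMap_eq, AlgHom.commutes, AlgHom.commutes]
      rw [h1]
      exact IntermediateField.algebraMap_mem _ _
    | add P Q hP hQ =>
      rw [map_add, map_add]
      exact add_mem hP hQ
    | mul_X P i hP =>
      rw [map_mul, map_mul]
      refine mul_mem hP ?_
      have h1 : phi k a (X i) = xB k a i := by simp [phi]
      rw [h1]
      exact hx i
  let s : Fin n → KB k a := fun j => io k a (X (Sum.inr j))
  have hs0 : ∀ j, s j ≠ 0 := by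
    intro j h
    exact X_ne_zero (R := k) (Sum.inr j : Fin (dd k a) ⊕ Fin n)
      (io_injective a (h.trans (map_zero (io k a)).symm))
  have hsB : ∀ i, io k a (sB k a i) = ∏ j, s j ^ a i j := by
    intro i
    rw [sB, map_prod]
    exact Finset.prod_congr rfl fun j _ => map_pow _ _ _
  have hsB0 : ∀ i, io k a (sB k a i) ≠ 0 := by
    intro i
    rw [hsB]
    exact Finset.prod_ne_zero_iff.2 fun j _ => pow_ne_zero _ (hs0 j)
  have hsF : ∀ e : Fin n → ℤ, ∏ j, s j ^ e j ∈ F₀ := by
    intro e
    have he : e ∈ AddSubgroup.closure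
        {e : Fin n → ℤ | ∃ i l, e = fun j => (a i j : ℤ) - a l j} := by
      rw [hlat]
      trivial
    induction he using AddSubgroup.closure_induction with
    | mem e he =>
      obtain ⟨i, l, rfl⟩ := he
      have h1 : ∏ j, s j ^ ((a i j : ℤ) - a l j) =
          io k a (phi k a (G l)) * (io k a (phi k a (G i)))⁻¹ := by
        have h2 : ∏ j, s j ^ ((a i j : ℤ) - a l j) =
            io k a (sB k a i) * (io k a (sB k a l))⁻¹ := by
          rw [hsB, hsB, ← Finset.prod_inv_distrib, ← Finset.prod_mul_distrib]
          refine Finset.prod_congr rfl fun j _ => ?_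
          rw [zpow_sub₀ (hs0 j), zpow_natCast, zpow_natCast, div_eq_mul_inv]
        have h3 := congrArg (io k a) (hG i l)
        rw [map_mul, map_mul] at h3
        have h4 : io k a (phi k a (G i)) ≠ 0 := by
          intro h
          exact hG0 i (io_injective a (h.trans (map_zero (io k a)).symm))
        rw [h2]
        have h5 := hsB0 l
        field_simp
        rw [mul_comm, h3, mul_comm]
      rw [h1]
      exact mul_mem (hφ _) (inv_mem (hφ _))
    | zero => simp [one_mem]
    | add e e' _ _ he he' =>
      have h1 : ∏ j, s j ^ (e + e') j = (∏ j, s j ^ e j) * ∏ j, s j ^ e' j := by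
        rw [← Finset.prod_mul_distrib]
        exact Finset.prod_congr rfl fun j _ => zpow_add₀ (hs0 j) _ _
      rw [h1]
      exact mul_mem he he'
    | neg e _ he =>
      have h1 : ∏ j, s j ^ (-e) j = (∏ j, s j ^ e j)⁻¹ := by
        rw [← Finset.prod_inv_distrib]
        exact Finset.prod_congr rfl fun j _ => zpow_neg _ _
      rw [h1]
      exact inv_mem he
  have hs : ∀ j, s j ∈ F₀ := by
    intro j
    have h1 := hsF (Pi.single j 1)
    rw [Finset.prod_eq_single j] at h1
    · rw [Pi.single_eq_same, zpow_one] at h1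
      exact h1
    · intro j' _ h
      rw [Pi.single_eq_of_ne h, zpow_zero]
    · intro h
      exact absurd (Finset.mem_univ _) h
  have hz : ∀ i, io k a (zB k a i) ∈ F₀ := by
    intro i
    have h1 : io k a (zB k a i) = io k a (xB k a i) * (io k a (sB k a i))⁻¹ := by
      rw [xB, map_mul, mul_assoc, mul_inv_cancel₀ (hsB0 i), mul_one]
    rw [h1]
    refine mul_mem (hx i) (inv_mem ?_)
    rw [hsB]
    exact prod_mem fun j _ => pow_mem (hs j) _
  -- the coordinates of the linear space
  have hX : ∀ c, io k a (X (Sum.inl c)) ∈ F₀ := by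
    let Z : (Fin (dd k a) → k) →ₗ[k] (Fin m → k) :=
      (LL k a).subtype.comp (bb k a).equivFun.symm.toLinearMap
    have hZinj : Function.Injective Z := by
      exact Subtype.val_injective.comp (bb k a).equivFun.symm.injective
    obtain ⟨W, hW⟩ := LinearMap.exists_leftInverse_of_injective Z (LinearMap.ker_eq_bot.2 hZinj)
    intro c
    have h1 : (X (Sum.inl c) : BB k a) = ∑ i, C (W (Pi.single i 1) c) * zB k a i := by
      simp_rw [zB, Finset.mul_sum]
      rw [Finset.sum_comm]
      have h2 : ∀ c', ∑ i, C (W (Pi.single i 1) c) * (C (ZZ k a i c') * X (Sum.inl c')) =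
          (if c' = c then (X (Sum.inl c') : BB k a) else 0) := by
        intro c'
        have h3 : ∑ i, W (Pi.single i 1) c * ZZ k a i c' = if c' = c then 1 else 0 := by
          have h4 : W (Z (Pi.single c' 1)) = Pi.single c' 1 := LinearMap.congr_fun hW _
          have h5 : Z (Pi.single c' 1) = ∑ i, ZZ k a i c' • Pi.single i (1 : k) := by
            have h6 : Z (Pi.single c' 1) = fun i => ZZ k a i c' := by
              change ((LL k a).subtype ((bb k a).equivFun.symm (Pi.single c' 1))) = _
              rw [Module.Basis.equivFun_symm_apply, Finset.sum_eq_single c']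
              · rw [Pi.single_eq_same, one_smul]
                rfl
              · intro c'' _ h
                rw [Pi.single_eq_of_ne h, zero_smul]
              · intro h
                exact absurd (Finset.mem_univ _) h
            rw [h6]
            funext i
            rw [Finset.sum_apply, Finset.sum_eq_single i]
            · simp
            · intro i' _ h
              rw [Pi.smul_apply, Pi.single_eq_of_ne (Ne.symm h), smul_zero]
            · intro h
              exact absurd (Finset.mem_univ _) h
          rw [h5, map_sum] at h4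
          have h7 := congrFun h4 c
          rw [Finset.sum_apply] at h7
          simp only [map_smul, Pi.smul_apply, smul_eq_mul] at h7
          rw [Finset.sum_congr rfl fun i _ => mul_comm (W (Pi.single i 1) c) (ZZ k a i c'), h7]
          rw [Pi.single_apply]
          exact if_congr eq_comm rfl rfl
        have h8 : ∀ i, C (W (Pi.single i 1) c) * (C (ZZ k a i c') * (X (Sum.inl c') : BB k a)) =
            C (W (Pi.single i 1) c * ZZ k a i c') * X (Sum.inl c') := by
          intro i
          rw [C_mul, mul_assoc]
        rw [Finset.sum_congr rfl fun i _ => h8 i, ← Finset.sum_mul, ← map_sum, h3]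
        by_cases h : c' = c
        · rw [if_pos h, if_pos h, C_1, one_mul]
        · rw [if_neg h, if_neg h, C_0, zero_mul]
      rw [Finset.sum_congr rfl fun c' _ => h2 c', Finset.sum_ite_eq', if_pos (Finset.mem_univ _)]
    rw [h1, map_sum]
    refine sum_mem fun i _ => ?_
    rw [map_mul]
    refine mul_mem ?_ (hz i)
    have h2 : io k a (C (W (Pi.single i 1) c)) = algebraMap k _ (W (Pi.single i 1) c) := by
      rw [← algebraMap_eq, AlgHom.commutes]
    rw [h2]
    exact IntermediateField.algebraMap_mem _ _
  -- generation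
  rw [eq_top_iff]
  rintro q -
  have hB : ∀ P : BB k a, io k a P ∈ F₀ := by
    intro P
    induction P using MvPolynomial.induction_on with
    | C c =>
      have h1 : io k a (C c) = algebraMap k _ c := by rw [← algebraMap_eq, AlgHom.commutes]
      rw [h1]
      exact IntermediateField.algebraMap_mem _ _
    | add P Q hP hQ =>
      rw [map_add]
      exact add_mem hP hQ
    | mul_X P i hP =>
      rw [map_mul]
      refine mul_mem hP ?_
      rcases i with c | j
      · exact hX c
      · exact hs j
  obtain ⟨P, Q, -, rfl⟩ := IsFractionRing.div_surjective (A := BB k a) q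
  exact div_mem (hB P) (hB Q)

end

end Pool.Agent.X326.AD
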