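import Pool.Agent.X326.AD.Main

/-!
# The set of singular polynomials
-/

set_option autoImplicit false

universe u

open MvPolynomial

namespace Pool.Agent.X326.AD

section

variable {R : Type u} [Field R] {m n : ℕ} (a : Fin m → Fin n → ℕ)

lemma euler_prod (e : Fin n → ℕ) (j : Fin n) :
    X j * pderiv j (∏ j', (X j' : MvPolynomial (Fin n) R) ^ e j') =
      (e j : MvPolynomial (Fin n) R) * ∏ j', X j' ^ e j' := by
  classical
  have h1 : ∏ j', (X j' : MvPolynomial (Fin n) R) ^ e j' = X j ^ e j *
      ∏ j' ∈ Finset.univ.erase j, X j' ^ e j' :=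
    (Finset.mul_prod_erase _ _ (Finset.mem_univ j)).symm
  have h2 : pderiv j (∏ j' ∈ Finset.univ.erase j, (X j' : MvPolynomial (Fin n) R) ^ e j') = 0 := by
    apply pderiv_eq_zero_of_notMem_vars
    intro h
    have h1 := vars_prod (fun j : Fin n => (X j : MvPolynomial (Fin n) R) ^ e j) h
    obtain ⟨j', hj', hj⟩ := Finset.mem_biUnion.1 h1
    have h2 := vars_pow _ _ hj
    rw [vars_X, Finset.mem_singleton] at h2
    exact Finset.ne_of_mem_erase hj' h2.symm
  have h3 : X j * pderiv j ((X j : MvPolynomial (Fin n) R) ^ e j) =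
      (e j : MvPolynomial (Fin n) R) * X j ^ e j := by
    rw [pderiv_pow, pderiv_X_self, mul_one]
    rcases Nat.eq_zero_or_pos (e j) with h | h
    · rw [h]
      simp
    · have h4 : (X j : MvPolynomial (Fin n) R) ^ e j = X j * X j ^ (e j - 1) := by
        rw [← pow_succ']
        congr 1
        omega
      rw [h4]
      ring
  rw [h1, pderiv_mul, h2, mul_zero, add_zero, ← mul_assoc, h3]
  ring

/-- the polynomial with given coefficients -/
noncomputable def poly (x : Fin m → R) : MvPolynomial (Fin n) R :=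
  ∑ i, C (x i) * ∏ j, X j ^ a i j

lemma eval_poly (x : Fin m → R) (t : Fin n → R) :
    eval t (poly a x) = ∑ i, x i * ∏ j, t j ^ a i j := by
  simp [poly]

lemma eval_pderiv (x : Fin m → R) (t : Fin n → R) (j : Fin n) :
    t j * eval t (pderiv j (poly a x)) = ∑ i, (a i j : R) * (x i * ∏ j', t j' ^ a i j') := by
  have h1 : X j * pderiv j (poly a x) =
      ∑ i, (a i j : MvPolynomial (Fin n) R) * (C (x i) * ∏ j', X j' ^ a i j') := by
    rw [poly, map_sum, Finset.mul_sum]
    refine Finset.sum_congr rfl fun i _ => ?_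
    rw [pderiv_C_mul, mul_left_comm, euler_prod]
    ring
  have h2 := congrArg (eval t) h1
  rw [map_mul, eval_X] at h2
  rw [h2]
  simp

end

section

variable {k : Type u} [Field k] {m n : ℕ} (a : Fin m → Fin n → ℕ)

lemma singSet_eq : SingSet k a = {x | ∃ t : Fin n → AlgebraicClosure k, (∀ j, t j ≠ 0) ∧
    eval t (poly a x) = 0 ∧ ∀ j, eval t (pderiv j (poly a x)) = 0} := by
  ext x
  constructor
  · rintro ⟨t, ht, h1, h2⟩
    refine ⟨t, ht, (eval_poly a x t).trans h1, fun j => ?_⟩
    have h3 := eval_pderiv a x t j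
    rw [h2 j] at h3
    exact (mul_eq_zero.1 h3).resolve_left (ht j)
  · rintro ⟨t, ht, h1, h2⟩
    refine ⟨t, ht, (eval_poly a x t).symm.trans h1, fun j => ?_⟩
    rw [← eval_pderiv a x t j, h2 j, mul_zero]

end

end Pool.Agent.X326.AD
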