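import Mathlib

/-!
# Linear algebra and derivatives for the parametrization of `A`-discriminants
-/

set_option autoImplicit false

universe u

open MvPolynomial

namespace Pool.Agent.X326.AD

section ann

variable {k K : Type u} [Field k] [Field K] [Algebra k K] {m n : ℕ} (a : Fin m → Fin n → ℕ)

/-- the linear space of the coefficient vectors with a singular point at `(1, ..., 1)` -/
def LL (k : Type u) [Field k] {m n : ℕ} (a : Fin m → Fin n → ℕ) : Submodule k (Fin m → k) where
  carrier := {z | ∑ i, z i = 0 ∧ ∀ j, ∑ i, (a i j : k) * z i = 0}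
  add_mem' := by
    rintro z z' ⟨h1, h2⟩ ⟨h1', h2'⟩
    refine ⟨?_, fun j => ?_⟩
    · simp only [Pi.add_apply, Finset.sum_add_distrib, h1, h1', add_zero]
    · simp only [Pi.add_apply, mul_add, Finset.sum_add_distrib, h2 j, h2' j, add_zero]
  zero_mem' := by simp
  smul_mem' := by
    rintro c z ⟨h1, h2⟩
    refine ⟨?_, fun j => ?_⟩
    · simp only [Pi.smul_apply, smul_eq_mul, ← Finset.mul_sum, h1, mul_zero]
    · have h3 : ∑ i, (a i j : k) * (c • z) i = c * ∑ i, (a i j : k) * z i := by
        rw [Finset.mul_sum]
        refine Finset.sum_congr rfl fun i _ => ?_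
        rw [Pi.smul_apply, smul_eq_mul]
        ring
      rw [h3, h2 j, mul_zero]

/-- the row vectors of the equations -/
def rows (k : Type u) [Field k] {m n : ℕ} (a : Fin m → Fin n → ℕ) :
    Option (Fin n) → (Fin m → k) :=
  fun o => o.elim (fun _ => 1) fun j i => (a i j : k)

/-- The annihilator of the linear space over the base field. -/
lemma ann_k (g : Fin m → k) (hg : ∀ z ∈ LL k a, ∑ i, g i * z i = 0) :
    ∃ c : Option (Fin n) → k, ∀ i, g i = c none + ∑ j, c (some j) * a i j := by
  classical
  -- the pairing
  let Φ : (Fin m → k) →ₗ[k] (Module.Dual k (Fin m → k)) :=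
    { toFun := fun g =>
        { toFun := fun z => ∑ i, g i * z i
          map_add' := fun z z' => by simp [mul_add, Finset.sum_add_distrib]
          map_smul' := fun c z => by
            simp only [Pi.smul_apply, smul_eq_mul, RingHom.id_apply, Finset.mul_sum]
            exact Finset.sum_congr rfl fun i _ => by ring }
      map_add' := fun g g' => by
        ext z
        simp [add_mul, Finset.sum_add_distrib]
      map_smul' := fun c g => by
        ext z
        simp [Finset.mul_sum, mul_assoc] }
  have hΦ : Function.Injective Φ := by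
    rw [injective_iff_map_eq_zero]
    intro g hg
    funext i
    have h1 := LinearMap.congr_fun hg (Pi.single i 1)
    change ∑ i', g i' * (Pi.single i 1 : Fin m → k) i' = 0 at h1
    rw [Finset.sum_eq_single i] at h1
    · rw [Pi.single_eq_same, mul_one] at h1
      exact h1
    · intro i' _ h
      rw [Pi.single_eq_of_ne h, mul_zero]
    · intro h
      exact absurd (Finset.mem_univ _) h
  let W : Submodule k (Module.Dual k (Fin m → k)) := Submodule.span k (Set.range (Φ ∘ rows k a))
  have hW : W.dualCoannihilator = LL k a := by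
    ext z
    rw [Submodule.mem_dualCoannihilator]
    constructor
    · intro h
      refine ⟨?_, fun j => ?_⟩
      · have h1 := h (Φ (rows k a none)) (Submodule.subset_span ⟨none, rfl⟩)
        change ∑ i, (1 : k) * z i = 0 at h1
        simpa using h1
      · exact h (Φ (rows k a (some j))) (Submodule.subset_span ⟨some j, rfl⟩)
    · rintro ⟨h1, h2⟩ φ hφ
      induction hφ using Submodule.span_induction with
      | mem φ hφ =>
        obtain ⟨o, rfl⟩ := hφ
        rcases o with _ | j
        · change ∑ i, (1 : k) * z i = 0
          simpa using h1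
        · exact h2 j
      | zero => rfl
      | add φ ψ _ _ hφ hψ => rw [LinearMap.add_apply, hφ, hψ, add_zero]
      | smul c φ _ hφ => rw [LinearMap.smul_apply, hφ, smul_zero]
  have h1 : Φ g ∈ W := by
    have h2 : W = (LL k a).dualAnnihilator := by
      rw [← hW]
      exact (Subspace.dualCoannihilator_dualAnnihilator_eq (W := W)).symm
    rw [h2, Submodule.mem_dualAnnihilator]
    exact hg
  obtain ⟨c, hc⟩ := (Submodule.mem_span_range_iff_exists_fun k).1 h1
  refine ⟨c, fun i => ?_⟩
  have h3 : g = ∑ o, c o • rows k a o := by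
    apply hΦ
    rw [map_sum, ← hc]
    exact Finset.sum_congr rfl fun o _ => by rw [map_smul]; rfl
  rw [h3, Fintype.sum_option]
  simp [rows]

/-- The annihilator of the linear space over an extension of the base field. -/
lemma ann_K (g : Fin m → K) (hg : ∀ z ∈ LL k a, ∑ i, g i * algebraMap k K (z i) = 0) :
    ∃ c : Option (Fin n) → K, ∀ i, g i = c none + ∑ j, c (some j) * a i j := by
  classical
  let b := Module.Basis.ofVectorSpace k K
  have h1 : ∀ α, ∃ c : Option (Fin n) → k, ∀ i, b.repr (g i) α =
      c none + ∑ j, c (some j) * a i j := by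
    intro α
    apply ann_k a (fun i => b.repr (g i) α)
    intro z hz
    have h2 := congrArg (fun q => b.repr q α) (hg z hz)
    simp only [map_zero, Finsupp.coe_zero, Pi.zero_apply] at h2
    rw [map_sum, Finsupp.finsetSum_apply] at h2
    rw [← h2]
    refine Finset.sum_congr rfl fun i _ => ?_
    rw [mul_comm (g i), ← Algebra.smul_def, map_smul, Finsupp.smul_apply, smul_eq_mul, mul_comm]
  choose c hc using h1
  let F := Finset.univ.biUnion fun i => (b.repr (g i)).support
  refine ⟨fun o => ∑ α ∈ F, c α o • b α, fun i => ?_⟩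
  have h2 : g i = ∑ α ∈ F, b.repr (g i) α • b α := by
    conv_lhs => rw [← b.linearCombination_repr (g i)]
    rw [Finsupp.linearCombination_apply, Finsupp.sum_of_support_subset _ (s := F)]
    · intro α hα
      exact Finset.mem_biUnion.2 ⟨i, Finset.mem_univ _, hα⟩
    · intro α _
      rw [zero_smul]
  rw [h2]
  simp_rw [hc, add_smul, Finset.sum_add_distrib, Finset.sum_smul, Finset.sum_mul]
  congr 1
  rw [Finset.sum_comm]
  refine Finset.sum_congr rfl fun j _ => Finset.sum_congr rfl fun α _ => ?_
  rw [Algebra.smul_def, Algebra.smul_def, map_mul, map_natCast]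
  ring

end ann

section pth

variable {k : Type u} [Field k] {σ : Type} [Finite σ] (p : ℕ) [Fact p.Prime] [CharP k p]
  [PerfectField k]

lemma exists_rootk (c : k) : ∃ b : k, b ^ p = c := by
  have hP : PerfectRing k p := PerfectField.toPerfectRing p
  obtain ⟨b, hb⟩ := (frobeniusEquiv k p).surjective c
  exact ⟨b, by rw [← hb]; rfl⟩

/-- A polynomial with vanishing derivatives is a `p`-th power. -/
lemma exists_pow_of_pderiv (F : MvPolynomial σ k) (hF : ∀ i, pderiv i F = 0) :
    ∃ G : MvPolynomial σ k, F = G ^ p := by
  classical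
  have h1 : ∀ α ∈ F.support, ∀ i, p ∣ α i := by
    intro α hα i
    by_contra hcon
    have hαi : α i ≠ 0 := fun h => hcon (h ▸ dvd_zero p)
    have h2 := coeff_pderiv F (i := i) (α - Finsupp.single i 1)
    have h3 : α - Finsupp.single i 1 + Finsupp.single i 1 = α := by
      apply tsub_add_cancel_of_le
      rw [Finsupp.single_le_iff]
      omega
    rw [hF i, coeff_zero, h3] at h2
    have h4 : (((α - Finsupp.single i 1 : σ →₀ ℕ) i : ℕ) : k) + 1 = (α i : k) := by
      rw [← Nat.cast_succ]
      congr 1
      simp only [Finsupp.coe_tsub, Pi.sub_apply, Finsupp.single_eq_same]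
      omega
    rw [h4] at h2
    rcases mul_eq_zero.1 h2.symm with h5 | h5
    · exact mem_support_iff.1 hα h5
    · exact hcon ((CharP.cast_eq_zero_iff k p _).1 h5)
  choose r hr using fun c : k => exists_rootk p c
  refine ⟨∑ α ∈ F.support, monomial (α.mapRange (· / p) (Nat.zero_div p)) (r (coeff α F)), ?_⟩
  rw [sum_pow_char]
  conv_lhs => rw [F.as_sum]
  refine Finset.sum_congr rfl fun α hα => ?_
  have h2 : p • α.mapRange (· / p) (Nat.zero_div p) = α := by
    ext i
    simp only [Finsupp.smul_apply, Finsupp.mapRange_apply, smul_eq_mul]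
    exact Nat.mul_div_cancel' (h1 α hα i)
  rw [monomial_pow, hr, h2]

end pth

end Pool.Agent.X326.AD
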