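import Pool.Agent.X326.AD.Bir
import Pool.Agent.X326.RK.Det

/-!
# Resolution of singularities of the `A`-discriminants
-/

set_option autoImplicit false

universe u

open MvPolynomial Pool.Agent.W558 AlgebraicGeometry CategoryTheory Algebra

namespace Pool.Agent.X326.AD

section

variable {k : Type u} [Field k] {m n : ℕ} (a : Fin m → Fin n → ℕ)

/-- the coefficient vectors of the polynomials which have a singular point in the torus -/
def SingSet (k : Type u) [Field k] {m n : ℕ} (a : Fin m → Fin n → ℕ) :
    Set (Fin m → AlgebraicClosure k) :=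
  {x | ∃ t : Fin n → AlgebraicClosure k, (∀ j, t j ≠ 0) ∧ ∑ i, x i * ∏ j, t j ^ a i j = 0 ∧
    ∀ j, ∑ i, (a i j : AlgebraicClosure k) * (x i * ∏ j', t j' ^ a i j') = 0}

/-- The ideal of the `A`-discriminant is the kernel of the parametrization. -/
theorem vanishingIdeal_eq :
    vanishingIdeal k (SingSet k a) = RingHom.ker (phi k a) := by
  classical
  let Ω := AlgebraicClosure k
  ext F
  rw [mem_vanishingIdeal_iff, RingHom.mem_ker]
  -- evaluation of the parametrization
  have hev : ∀ (X₀ : Fin (dd k a) → Ω) (s : Fin n → Ω),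
      aeval (Sum.elim X₀ s) (phi k a F) =
        aeval (fun i => (∑ c, algebraMap k Ω (ZZ k a i c) * X₀ c) * ∏ j, s j ^ a i j) F := by
    intro X₀ s
    have h1 : (aeval (Sum.elim X₀ s) : BB k a →ₐ[k] Ω).comp (phi k a) =
        aeval (fun i => (∑ c, algebraMap k Ω (ZZ k a i c) * X₀ c) * ∏ j, s j ^ a i j) := by
      apply algHom_ext
      intro i
      rw [AlgHom.comp_apply, phi, aeval_X, aeval_X, xB, zB, sB, map_mul, map_sum, map_prod]
      congr 1
      · refine Finset.sum_congr rfl fun c _ => ?_
        rw [map_mul, aeval_X, aeval_C]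
        rfl
      · refine Finset.prod_congr rfl fun j _ => ?_
        rw [map_pow, aeval_X]
        rfl
    rw [← h1]
    rfl
  constructor
  · intro h
    -- the polynomial vanishes on the torus
    have h1 : (phi k a F) * ∏ j, X (Sum.inr j) = 0 := by
      apply map_injective (algebraMap k Ω) (algebraMap k Ω).injective
      apply MvPolynomial.funext
      intro q
      rw [map_zero, map_zero, MvPolynomial.eval_map, ← aeval_def, map_mul]
      have h2 : q = Sum.elim (fun c => q (Sum.inl c)) fun j => q (Sum.inr j) := by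
        funext o
        rcases o with o | o <;> rfl
      by_cases h3 : ∃ j, q (Sum.inr j) = 0
      · obtain ⟨j, hj⟩ := h3
        rw [map_prod]
        refine mul_eq_zero_of_right _ (Finset.prod_eq_zero (Finset.mem_univ j) ?_)
        rw [aeval_X, hj]
      · push Not at h3
        refine mul_eq_zero_of_left ?_ _
        rw [h2, hev]
        apply h
        refine ⟨fun j => (q (Sum.inr j))⁻¹, fun j => inv_ne_zero (h3 j), ?_, ?_⟩
        · have h4 : ∀ i, ((∑ c, algebraMap k Ω (ZZ k a i c) * q (Sum.inl c)) *
              ∏ j, q (Sum.inr j) ^ a i j) * ∏ j, (q (Sum.inr j))⁻¹ ^ a i j =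
              ∑ c, algebraMap k Ω (ZZ k a i c) * q (Sum.inl c) := by
            intro i
            rw [mul_assoc, ← Finset.prod_mul_distrib]
            have h5 : ∏ j, (q (Sum.inr j) ^ a i j * (q (Sum.inr j))⁻¹ ^ a i j) = 1 := by
              refine Finset.prod_eq_one fun j _ => ?_
              rw [← mul_pow, mul_inv_cancel₀ (h3 j), one_pow]
            rw [h5, mul_one]
          rw [Finset.sum_congr rfl fun i _ => h4 i, Finset.sum_comm]
          refine Finset.sum_eq_zero fun c _ => ?_
          rw [← Finset.sum_mul, ← map_sum]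
          have h5 : ∑ i, ZZ k a i c = 0 := (bb k a c).2.1
          rw [h5, map_zero, zero_mul]
        · intro l
          have h4 : ∀ i, (a i l : Ω) * (((∑ c, algebraMap k Ω (ZZ k a i c) * q (Sum.inl c)) *
              ∏ j, q (Sum.inr j) ^ a i j) * ∏ j, (q (Sum.inr j))⁻¹ ^ a i j) =
              ∑ c, algebraMap k Ω ((a i l : k) * ZZ k a i c) * q (Sum.inl c) := by
            intro i
            rw [mul_assoc (∑ c, _), ← Finset.prod_mul_distrib]
            have h5 : ∏ j, (q (Sum.inr j) ^ a i j * (q (Sum.inr j))⁻¹ ^ a i j) = 1 := by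
              refine Finset.prod_eq_one fun j _ => ?_
              rw [← mul_pow, mul_inv_cancel₀ (h3 j), one_pow]
            rw [h5, mul_one, Finset.mul_sum]
            refine Finset.sum_congr rfl fun c _ => ?_
            rw [map_mul, map_natCast]
            ring
          rw [Finset.sum_congr rfl fun i _ => h4 i, Finset.sum_comm]
          refine Finset.sum_eq_zero fun c _ => ?_
          rw [← Finset.sum_mul, ← map_sum]
          have h5 : ∑ i, (a i l : k) * ZZ k a i c = 0 := (bb k a c).2.2 l
          rw [h5, map_zero, zero_mul]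
    rcases mul_eq_zero.1 h1 with h2 | h2
    · exact h2
    · exact absurd h2 (Finset.prod_ne_zero_iff.2 fun j _ => X_ne_zero _)
  · rintro h x ⟨t, ht, h1, h2⟩
    obtain ⟨X₀, hX₀⟩ := LL_ext (k := k) a (K := Ω) (fun i => x i * ∏ j, t j ^ a i j) h1 h2
    have h3 := hev X₀ (fun j => (t j)⁻¹)
    have h4 : phi k a F = 0 := h
    rw [h4, map_zero] at h3
    rw [h3]
    congr 2
    funext i
    have h5 : ∑ c, algebraMap k Ω (ZZ k a i c) * X₀ c = x i * ∏ j, t j ^ a i j := by
      rw [hX₀ i]
      exact Finset.sum_congr rfl fun c _ => mul_comm _ _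
    rw [h5, mul_assoc, ← Finset.prod_mul_distrib]
    have h6 : ∏ j, (t j ^ a i j * (t j)⁻¹ ^ a i j) = 1 := by
      refine Finset.prod_eq_one fun j _ => ?_
      rw [← mul_pow, mul_inv_cancel₀ (ht j), one_pow]
    rw [h6, mul_one]

/-- the coordinate ring of the `A`-discriminant -/
abbrev DR (k : Type u) [Field k] {m n : ℕ} (a : Fin m → Fin n → ℕ) : Type u :=
  MvPolynomial (Fin m) k ⧸ vanishingIdeal k (SingSet k a)

/-- the embedding of the coordinate ring -/
noncomputable def em (k : Type u) [Field k] {m n : ℕ} (a : Fin m → Fin n → ℕ) :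
    DR k a →ₐ[k] KB k a :=
  Ideal.Quotient.liftₐ _ ((io k a).comp (phi k a)) (by
    intro F hF
    rw [vanishingIdeal_eq a, RingHom.mem_ker] at hF
    rw [AlgHom.comp_apply]
    have h : phi k a F = 0 := hF
    rw [h, map_zero])

lemma em_mk (F : MvPolynomial (Fin m) k) :
    em k a (Ideal.Quotient.mk _ F) = io k a (phi k a F) := rfl

lemma em_injective : Function.Injective (em k a) := by
  rw [injective_iff_map_eq_zero]
  intro q hq
  obtain ⟨F, rfl⟩ := Ideal.Quotient.mk_surjective q
  rw [em_mk] at hq
  have h1 : phi k a F = 0 := io_injective a (hq.trans (map_zero (io k a)).symm)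
  rw [Ideal.Quotient.eq_zero_iff_mem, vanishingIdeal_eq a, RingHom.mem_ker]
  exact h1

/-- The `A`-discriminant has a resolution of singularities. -/
theorem main (p : ℕ) [Fact p.Prime] [CharP k p] [PerfectField k] (hm : 0 < m)
    {z₀ : Fin m → k} (hz₀ : z₀ ∈ LL k a) (hH : (Hs k a z₀).det ≠ 0)
    (hlat : AddSubgroup.closure {e : Fin n → ℤ | ∃ i l, e = fun j => (a i j : ℤ) - a l j} = ⊤) :
    IsResolvableVariety (X := Spec (CommRingCat.of (DR k a)))
      (Spec.map (CommRingCat.ofHom (algebraMap k (DR k a)))) := by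
  classical
  let K := KB k a
  let A := DR k a
  have hinj := em_injective (k := k) a
  have hdom : IsDomain A := hinj.isDomain (em k a).toRingHom
  let alg : Algebra A K := (em k a).toRingHom.toAlgebra
  have hst : IsScalarTower k A K := IsScalarTower.of_algebraMap_eq fun c => ((em k a).commutes c).symm
  have hfs : FaithfulSMul A K := (faithfulSMul_iff_algebraMap_injective A K).2 hinj
  have hbir := birational a p hm hz₀ hH hlat
  have hfrac : IsFractionRing A K := by
    refine IsFractionRing.of_field A K ?_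
    intro z
    have hz : z ∈ IntermediateField.adjoin k (Set.range fun i => io k a (xB k a i)) := by
      rw [hbir]
      trivial
    rw [IntermediateField.mem_adjoin_iff_div] at hz
    have hmem : ∀ r ∈ Algebra.adjoin k (Set.range fun i => io k a (xB k a i)),
        ∃ c : A, algebraMap A K c = r := by
      intro r hr
      have h1 : Algebra.adjoin k (Set.range fun i => io k a (xB k a i)) ≤ (em k a).range := by
        apply Algebra.adjoin_le
        rintro _ ⟨i, rfl⟩
        refine ⟨Ideal.Quotient.mk _ (X i), ?_⟩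
        change em k a (Ideal.Quotient.mk _ (X i)) = _
        rw [em_mk, phi, aeval_X]
      obtain ⟨c, hc⟩ := h1 hr
      exact ⟨c, hc⟩
    obtain ⟨r, hr, s, hs, h⟩ := hz
    obtain ⟨c, hc⟩ := hmem r hr
    obtain ⟨d, hd⟩ := hmem s hs
    exact ⟨c, d, by rw [h, hc, hd]⟩
  -- the spaces
  let XK : Fin (dd k a) → K := fun c => io k a (X (Sum.inl c))
  let sK : Fin n → K := fun j => io k a (X (Sum.inr j))
  have hXK0 : ∀ q, io k a (X q) ≠ 0 := by
    intro q h
    exact X_ne_zero (R := k) q (io_injective a (h.trans (map_zero (io k a)).symm))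
  have hind : AlgebraicIndependent k fun q : Fin (dd k a) ⊕ Fin n => io k a (X q) :=
    (algebraicIndependent_X _ k).map' (io_injective a)
  let V : Fin (n + 1) → Submodule k K :=
    Fin.cons (Submodule.span k (Set.range XK)) fun j => Submodule.span k {sK j}
  have hV0 : V 0 = Submodule.span k (Set.range XK) := rfl
  have hVs : ∀ j : Fin n, V j.succ = Submodule.span k {sK j} := fun j => rfl
  have hVfd : ∀ s, FiniteDimensional k (V s) := by
    intro s
    refine Fin.cases ?_ (fun j => ?_) s
    · rw [hV0]
      exact FiniteDimensional.span_of_finite k (Set.finite_range XK)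
    · rw [hVs]
      infer_instance
  have hfin0 : Module.finrank k (V 0) = dd k a := by
    rw [hV0]
    have h1 : LinearIndependent k XK :=
      hind.linearIndependent.comp Sum.inl Sum.inl_injective
    rw [finrank_span_eq_card h1, Fintype.card_fin]
  have hfins : ∀ j : Fin n, Module.finrank k (V j.succ) = 1 := by
    intro j
    rw [hVs]
    exact finrank_span_singleton (hXK0 (Sum.inr j))
  have htr : Algebra.trdeg k K = ((dd k a + n : ℕ) : Cardinal) := by
    have h1 := trdeg_add_eq k (BB k a) (A := K)
    have h2 : Algebra.IsAlgebraic (BB k a) K := IsLocalization.isAlgebraic _ (nonZeroDivisors (BB k a))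
    have h3 : Algebra.trdeg (BB k a) K = 0 := trdeg_eq_zero
    have h4 : Algebra.trdeg k (BB k a) = ((dd k a + n : ℕ) : Cardinal) := by
      rw [MvPolynomial.trdeg_of_isDomain]
      simp
    rw [← h1, h3, add_zero, h4]
  have hzV : ∀ i, io k a (zB k a i) ∈ V 0 := by
    intro i
    rw [zB, map_sum]
    refine Submodule.sum_mem _ fun c _ => ?_
    have h1 : io k a (C (ZZ k a i c) * X (Sum.inl c)) = ZZ k a i c • XK c := by
      rw [← smul_eq_C_mul, map_smul]
    rw [h1, hV0]
    exact Submodule.smul_mem _ _ (Submodule.subset_span ⟨c, rfl⟩)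
  have hsV : ∀ j : Fin n, sK j ∈ V j.succ := by
    intro j
    rw [hVs]
    exact Submodule.mem_span_singleton_self _
  have hxK : ∀ i, io k a (xB k a i) = io k a (zB k a i) * ∏ j, sK j ^ a i j := by
    intro i
    rw [xB, sB, map_mul, map_prod]
    congr 1
    exact Finset.prod_congr rfl fun j _ => map_pow _ _ _
  let S : Finset Kˣ := Finset.univ.image fun i : {i : Fin m // io k a (xB k a i) ≠ 0} =>
    Units.mk0 (io k a (xB k a i.1)) i.2
  refine plf_main p k k K A (Or.inr (RK.hasLogModels_of_surjective fun c => ⟨c, rfl⟩)) (n + 1) V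
    ?_ 0 (fun _ => Bool) (fun _ => true) (fun j => j.elim0) (fun j => j.elim0)
    (fun j => j.elim0) (fun j => j.elim0) (fun j => j.elim0) (fun j => j.elim0)
    (fun j => j.elim0) (fun j => j.elim0) (fun j => j.elim0) (fun j => j.elim0)
    (fun j => j.elim0) (fun j => j.elim0) ?_ ?_ S ?_ ?_
  · rw [_root_.eq_top_iff, ← hbir, IntermediateField.adjoin_le_iff]
    rintro _ ⟨i, rfl⟩
    change io k a (xB k a i) ∈ _
    rw [hxK i]
    refine mul_mem ?_ (prod_mem fun j _ => pow_mem ?_ _)
    · exact IntermediateField.subset_adjoin k _ (Set.mem_iUnion.2 ⟨0, hzV i⟩)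
    · exact IntermediateField.subset_adjoin k _ (Set.mem_iUnion.2 ⟨j.succ, hsV j⟩)
  · have hemp : IsEmpty ((_ : Fin 0) × {i : Bool // i ≠ true}) := ⟨fun q => q.1.elim0⟩
    exact linearIndependent_empty_type
  · rw [Fin.sum_univ_succ, hfin0, Finset.sum_congr rfl fun j _ => hfins j]
    simp [htr]
  · intro x hx
    obtain ⟨⟨i, hi0⟩, -, rfl⟩ := Finset.mem_image.1 hx
    have hz0 : io k a (zB k a i) ≠ 0 := by
      intro h
      apply hi0
      rw [hxK i, h, zero_mul]
    have h1 : Units.mk0 (io k a (xB k a i)) hi0 = Units.mk0 (io k a (zB k a i)) hz0 *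
        ∏ j, Units.mk0 (sK j) (hXK0 (Sum.inr j)) ^ a i j := by
      apply Units.ext
      rw [Units.val_mul, Units.coe_prod]
      simp only [Units.val_mk0, Units.val_pow_eq_pow_val]
      exact hxK i
    rw [h1]
    refine Subgroup.mul_mem _ ?_ (Subgroup.prod_mem _ fun j _ => Subgroup.pow_mem _ ?_ _)
    · exact Subgroup.subset_closure (Or.inr (Or.inl ⟨0, hzV i⟩))
    · exact Subgroup.subset_closure (Or.inr (Or.inl ⟨j.succ, hsV j⟩))
  · have h1 : (IsScalarTower.toAlgHom k A K).range =
        Algebra.adjoin k (Set.range fun i => io k a (xB k a i)) := by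
      have h2 : (Set.range fun i => io k a (xB k a i)) =
          ((io k a).comp (phi k a)) '' (Set.range X) := by
        ext q
        constructor
        · rintro ⟨i, rfl⟩
          refine ⟨X i, ⟨i, rfl⟩, ?_⟩
          rw [AlgHom.comp_apply, phi, aeval_X]
        · rintro ⟨_, ⟨i, rfl⟩, rfl⟩
          refine ⟨i, ?_⟩
          rw [AlgHom.comp_apply, phi, aeval_X]
      rw [h2, ← AlgHom.map_adjoin, MvPolynomial.adjoin_range_X, Algebra.map_top]
      apply le_antisymm
      · rintro _ ⟨c, rfl⟩
        obtain ⟨F, rfl⟩ := Ideal.Quotient.mk_surjective c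
        exact ⟨F, rfl⟩
      · rintro _ ⟨F, rfl⟩
        exact ⟨Ideal.Quotient.mk _ F, rfl⟩
    rw [h1]
    apply le_antisymm
    · apply Algebra.adjoin_le
      rintro _ ⟨i, rfl⟩
      by_cases h : io k a (xB k a i) = 0
      · change io k a (xB k a i) ∈ _
        rw [h]
        exact zero_mem _
      · apply Algebra.subset_adjoin
        refine ⟨Units.mk0 _ h, ?_, rfl⟩
        exact Finset.mem_coe.2 (Finset.mem_image.2 ⟨⟨i, h⟩, Finset.mem_univ _, rfl⟩)
    · apply Algebra.adjoin_mono
      rintro _ ⟨x, hx, rfl⟩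
      obtain ⟨i, -, rfl⟩ := Finset.mem_image.1 (Finset.mem_coe.1 hx)
      exact ⟨i.1, rfl⟩

end

end Pool.Agent.X326.AD
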