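import Pool.Agent.X326.AD.Lin

/-!
# The parametrization of the `A`-discriminant
-/

set_option autoImplicit false

universe u

open MvPolynomial

namespace Pool.Agent.X326.AD

section

variable {k : Type u} [Field k] {m n : ℕ} (a : Fin m → Fin n → ℕ)

/-- the dimension of the linear space -/
noncomputable abbrev dd (k : Type u) [Field k] {m n : ℕ} (a : Fin m → Fin n → ℕ) : ℕ :=
  Module.finrank k (LL k a)

/-- a basis of the linear space -/
noncomputable def bb (k : Type u) [Field k] {m n : ℕ} (a : Fin m → Fin n → ℕ) :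
    Module.Basis (Fin (dd k a)) k (LL k a) :=
  Module.finBasis k (LL k a)

/-- the coordinates of the basis -/
noncomputable def ZZ (k : Type u) [Field k] {m n : ℕ} (a : Fin m → Fin n → ℕ) (i : Fin m)
    (c : Fin (dd k a)) : k :=
  (bb k a c : Fin m → k) i

/-- the polynomial ring of the parametrization -/
abbrev BB (k : Type u) [Field k] {m n : ℕ} (a : Fin m → Fin n → ℕ) : Type u :=
  MvPolynomial (Fin (dd k a) ⊕ Fin n) k

/-- the linear forms -/
noncomputable def zB (k : Type u) [Field k] {m n : ℕ} (a : Fin m → Fin n → ℕ) (i : Fin m) :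
    BB k a :=
  ∑ c, C (ZZ k a i c) * X (Sum.inl c)

/-- the monomials -/
noncomputable def sB (k : Type u) [Field k] {m n : ℕ} (a : Fin m → Fin n → ℕ) (i : Fin m) :
    BB k a :=
  ∏ j, X (Sum.inr j) ^ a i j

/-- the coordinates of the parametrization -/
noncomputable def xB (k : Type u) [Field k] {m n : ℕ} (a : Fin m → Fin n → ℕ) (i : Fin m) :
    BB k a :=
  zB k a i * sB k a i

/-- the parametrization -/
noncomputable def phi (k : Type u) [Field k] {m n : ℕ} (a : Fin m → Fin n → ℕ) :
    MvPolynomial (Fin m) k →ₐ[k] BB k a :=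
  aeval (xB k a)

lemma LL_repr (z : Fin m → k) (hz : z ∈ LL k a) :
    ∀ i, z i = ∑ c, (bb k a).repr ⟨z, hz⟩ c * ZZ k a i c := by
  intro i
  have h1 := (bb k a).sum_repr ⟨z, hz⟩
  have h2 := congrArg (fun y : LL k a => (y : Fin m → k) i) h1
  change _ = z i at h2
  rw [← h2]
  simp only [Submodule.coe_sum, Submodule.coe_smul, Finset.sum_apply, Pi.smul_apply, smul_eq_mul]
  rfl

/-- Points of the linear space with coordinates in an extension field. -/
lemma LL_ext {K : Type*} [Field K] [Algebra k K] (z : Fin m → K) (h1 : ∑ i, z i = 0)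
    (h2 : ∀ j, ∑ i, (a i j : K) * z i = 0) :
    ∃ X : Fin (dd k a) → K, ∀ i, z i = ∑ c, X c * algebraMap k K (ZZ k a i c) := by
  classical
  let b := Module.Basis.ofVectorSpace k K
  have h3 : ∀ α, (fun i => b.repr (z i) α) ∈ LL k a := by
    intro α
    refine ⟨?_, fun j => ?_⟩
    · have h4 := congrArg (fun q => b.repr q α) h1
      simp only [map_zero, Finsupp.coe_zero, Pi.zero_apply] at h4
      rw [map_sum, Finsupp.finsetSum_apply] at h4
      exact h4
    · have h4 := congrArg (fun q => b.repr q α) (h2 j)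
      simp only [map_zero, Finsupp.coe_zero, Pi.zero_apply] at h4
      rw [map_sum, Finsupp.finsetSum_apply] at h4
      rw [← h4]
      refine Finset.sum_congr rfl fun i _ => ?_
      have h5 : (a i j : K) * z i = (a i j : k) • z i := by
        rw [Algebra.smul_def, map_natCast]
      rw [h5, map_smul, Finsupp.smul_apply, smul_eq_mul]
  let F := Finset.univ.biUnion fun i => (b.repr (z i)).support
  refine ⟨fun c => ∑ α ∈ F, (bb k a).repr ⟨_, h3 α⟩ c • b α, fun i => ?_⟩
  have h4 : z i = ∑ α ∈ F, b.repr (z i) α • b α := by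
    conv_lhs => rw [← b.linearCombination_repr (z i)]
    rw [Finsupp.linearCombination_apply, Finsupp.sum_of_support_subset _ (s := F)]
    · intro α hα
      exact Finset.mem_biUnion.2 ⟨i, Finset.mem_univ _, hα⟩
    · intro α _
      rw [zero_smul]
  rw [h4]
  simp_rw [Finset.sum_mul]
  rw [Finset.sum_comm]
  refine Finset.sum_congr rfl fun α _ => ?_
  have h5 : b.repr (z i) α = ∑ c, (bb k a).repr ⟨_, h3 α⟩ c * ZZ k a i c :=
    LL_repr a (fun i => b.repr (z i) α) (h3 α) i
  rw [h5, Finset.sum_smul]
  refine Finset.sum_congr rfl fun c _ => ?_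
  rw [Algebra.smul_def, Algebra.smul_def, map_mul]
  ring

lemma sum_zB : ∑ i, zB k a i = 0 := by
  simp_rw [zB]
  rw [Finset.sum_comm]
  refine Finset.sum_eq_zero fun c _ => ?_
  rw [← Finset.sum_mul, ← map_sum]
  have h1 : ∑ i, ZZ k a i c = 0 := (bb k a c).2.1
  rw [h1, C_0, zero_mul]

lemma sum_a_zB (j : Fin n) : ∑ i, (a i j : BB k a) * zB k a i = 0 := by
  simp_rw [zB, Finset.mul_sum]
  rw [Finset.sum_comm]
  refine Finset.sum_eq_zero fun c _ => ?_
  have h1 : ∑ i, (a i j : k) * ZZ k a i c = 0 := (bb k a c).2.2 j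
  have h2 : ∀ i, (a i j : BB k a) * (C (ZZ k a i c) * X (Sum.inl c)) =
      C ((a i j : k) * ZZ k a i c) * X (Sum.inl c) := by
    intro i
    rw [C_mul, ← mul_assoc]
    congr 2
  rw [Finset.sum_congr rfl fun i _ => h2 i, ← Finset.sum_mul, ← map_sum, h1, C_0, zero_mul]

lemma pderiv_zB_inl (i : Fin m) (c : Fin (dd k a)) :
    pderiv (Sum.inl c) (zB k a i) = C (ZZ k a i c) := by
  classical
  rw [zB, map_sum, Finset.sum_eq_single c]
  · rw [pderiv_C_mul, pderiv_X_self, mul_one]
  · intro c' _ h
    rw [pderiv_C_mul, pderiv_X_of_ne (fun h' => h (Sum.inl_injective h')), mul_zero]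
  · intro h
    exact absurd (Finset.mem_univ _) h

lemma pderiv_zB_inr (i : Fin m) (j : Fin n) : pderiv (Sum.inr j) (zB k a i) = 0 := by
  classical
  rw [zB, map_sum]
  refine Finset.sum_eq_zero fun c _ => ?_
  rw [pderiv_C_mul, pderiv_X_of_ne Sum.inl_ne_inr, mul_zero]

lemma pderiv_sB_inl (i : Fin m) (c : Fin (dd k a)) : pderiv (Sum.inl c) (sB k a i) = 0 := by
  classical
  apply pderiv_eq_zero_of_notMem_vars
  intro h
  rw [sB] at h
  have h1 := vars_prod (fun j : Fin n => (X (Sum.inr j) : BB k a) ^ a i j) h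
  obtain ⟨j, -, hj⟩ := Finset.mem_biUnion.1 h1
  have h2 := vars_pow _ _ hj
  rw [vars_X, Finset.mem_singleton] at h2
  exact Sum.inl_ne_inr h2

lemma pderiv_sB_inr (i : Fin m) (j : Fin n) :
    X (Sum.inr j) * pderiv (Sum.inr j) (sB k a i) = (a i j : BB k a) * sB k a i := by
  classical
  have h1 : sB k a i = X (Sum.inr j) ^ a i j * ∏ j' ∈ Finset.univ.erase j,
      X (Sum.inr j') ^ a i j' := (Finset.mul_prod_erase _ _ (Finset.mem_univ j)).symm
  have h2 : pderiv (Sum.inr j) (∏ j' ∈ Finset.univ.erase j,
      (X (Sum.inr j') : BB k a) ^ a i j') = 0 := by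
    apply pderiv_eq_zero_of_notMem_vars
    intro h
    have h1 := vars_prod (fun j : Fin n => (X (Sum.inr j) : BB k a) ^ a i j) h
    obtain ⟨j', hj', hj⟩ := Finset.mem_biUnion.1 h1
    have h2 := vars_pow _ _ hj
    rw [vars_X, Finset.mem_singleton] at h2
    exact Finset.ne_of_mem_erase hj' (Sum.inr_injective h2).symm
  have h3 : X (Sum.inr j) * pderiv (Sum.inr j) ((X (Sum.inr j) : BB k a) ^ a i j) =
      (a i j : BB k a) * X (Sum.inr j) ^ a i j := by
    rw [pderiv_pow, pderiv_X_self, mul_one]
    rcases Nat.eq_zero_or_pos (a i j) with h | h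
    · rw [h]
      simp
    · have h4 : (X (Sum.inr j) : BB k a) ^ a i j = X (Sum.inr j) * X (Sum.inr j) ^ (a i j - 1) := by
        rw [← pow_succ']
        congr 1
        omega
      rw [h4]
      ring
  rw [h1, pderiv_mul, h2, mul_zero, add_zero, ← mul_assoc, h3]
  ring

lemma pderiv_xB_inl (i : Fin m) (c : Fin (dd k a)) :
    pderiv (Sum.inl c) (xB k a i) = C (ZZ k a i c) * sB k a i := by
  rw [xB, pderiv_mul, pderiv_zB_inl, pderiv_sB_inl, mul_zero, add_zero]

lemma pderiv_xB_inr (i : Fin m) (j : Fin n) :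
    X (Sum.inr j) * pderiv (Sum.inr j) (xB k a i) = (a i j : BB k a) * xB k a i := by
  rw [xB, pderiv_mul, pderiv_zB_inr, zero_mul, zero_add, mul_left_comm, pderiv_sB_inr]
  ring

/-- the chain rule -/
lemma pderiv_phi (q : Fin (dd k a) ⊕ Fin n) (F : MvPolynomial (Fin m) k) :
    pderiv q (phi k a F) = ∑ i, phi k a (pderiv i F) * pderiv q (xB k a i) := by
  classical
  induction F using MvPolynomial.induction_on with
  | C c =>
    have h1 : phi k a (C c) = C c := by simp [phi, algebraMap_eq]
    rw [h1, pderiv_C]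
    symm
    refine Finset.sum_eq_zero fun i _ => ?_
    rw [pderiv_C, map_zero, zero_mul]
  | add F G hF hG =>
    rw [map_add, map_add, hF, hG, ← Finset.sum_add_distrib]
    refine Finset.sum_congr rfl fun i _ => ?_
    rw [map_add, map_add, add_mul]
  | mul_X F l hF =>
    have h1 : phi k a (X l) = xB k a l := by simp [phi]
    rw [map_mul, h1, pderiv_mul, hF]
    have h2 : ∀ i, phi k a (pderiv i (F * X l)) * pderiv q (xB k a i) =
        phi k a (pderiv i F) * pderiv q (xB k a i) * xB k a l +
          (if i = l then phi k a F * pderiv q (xB k a l) else 0) := by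
      intro i
      rw [pderiv_mul, map_add, map_mul, h1, map_mul]
      by_cases h : i = l
      · subst h
        rw [pderiv_X_self, if_pos rfl, map_one]
        ring
      · rw [pderiv_X_of_ne (Ne.symm h), if_neg h, map_zero]
        ring
    rw [Finset.sum_congr rfl fun i _ => h2 i, Finset.sum_add_distrib, Finset.sum_ite_eq',
      if_pos (Finset.mem_univ _), Finset.sum_mul]

/-- the Hessian matrix -/
def Hs (k : Type u) [Field k] {m n : ℕ} (a : Fin m → Fin n → ℕ) (z : Fin m → k) :
    Matrix (Fin n) (Fin n) k :=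
  Matrix.of fun j l => ∑ i, (a i j : k) * a i l * z i

/-- the generic Hessian matrix -/
noncomputable def HB (k : Type u) [Field k] {m n : ℕ} (a : Fin m → Fin n → ℕ) :
    Matrix (Fin n) (Fin n) (BB k a) :=
  Matrix.of fun j l => ∑ i, (a i j : BB k a) * a i l * zB k a i

lemma det_HB {z : Fin m → k} (hz : z ∈ LL k a) (hH : (Hs k a z).det ≠ 0) :
    (HB k a).det ≠ 0 := by
  intro h
  apply hH
  let ε : BB k a →ₐ[k] k := aeval (Sum.elim (fun c => (bb k a).repr ⟨z, hz⟩ c) fun _ => 0)
  have h1 : ∀ i, ε (zB k a i) = z i := by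
    intro i
    rw [LL_repr a z hz i, zB, map_sum]
    refine Finset.sum_congr rfl fun c _ => ?_
    simp [ε, mul_comm]
  have h2 : ε.mapMatrix (HB k a) = Hs k a z := by
    ext j l
    change ε (∑ i, (a i j : BB k a) * a i l * zB k a i) = ∑ i, (a i j : k) * a i l * z i
    rw [map_sum]
    refine Finset.sum_congr rfl fun i _ => ?_
    rw [map_mul, map_mul, h1, map_natCast, map_natCast]
  rw [← h2, ← AlgHom.map_det, h, map_zero]

/-- the dimension of the linear space -/
lemma dd_eq (hm : 0 < m) {z : Fin m → k} (hz : z ∈ LL k a) (hH : (Hs k a z).det ≠ 0) :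
    dd k a + (n + 1) = m := by
  classical
  let M : Matrix (Option (Fin n)) (Fin m) k := Matrix.of (rows k a)
  have hrow : LinearIndependent k M.row := by
    rw [Fintype.linearIndependent_iff]
    intro c hc
    have h1 : ∀ i, c none + ∑ j, c (some j) * a i j = 0 := by
      intro i
      have h2 := congrFun hc i
      rw [Finset.sum_apply, Fintype.sum_option] at h2
      simpa [M, rows] using h2
    have h2 : Matrix.vecMul (fun j => c (some j)) (Hs k a z) = 0 := by
      funext l
      change ∑ j, c (some j) * ∑ i, (a i j : k) * a i l * z i = 0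
      simp_rw [Finset.mul_sum]
      rw [Finset.sum_comm]
      have h3 : ∀ i, ∑ j, c (some j) * ((a i j : k) * a i l * z i) =
          -c none * ((a i l : k) * z i) := by
        intro i
        have h4 : ∑ j, c (some j) * (a i j : k) = -c none := by
          have := h1 i
          linear_combination this
        rw [← h4, Finset.sum_mul]
        exact Finset.sum_congr rfl fun j _ => by ring
      rw [Finset.sum_congr rfl fun i _ => h3 i, ← Finset.mul_sum, hz.2 l, mul_zero]
    have h3 := Matrix.eq_zero_of_vecMul_eq_zero hH h2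
    have h4 : c none = 0 := by
      have h5 := h1 ⟨0, hm⟩
      have h6 : ∀ j, c (some j) = 0 := fun j => congrFun h3 j
      simpa [h6] using h5
    intro o
    rcases o with _ | j
    · exact h4
    · exact congrFun h3 j
  have h1 := hrow.rank_matrix
  have h2 := LinearMap.finrank_range_add_finrank_ker M.mulVecLin
  have h3 : LinearMap.ker M.mulVecLin = LL k a := by
    ext y
    rw [LinearMap.mem_ker]
    constructor
    · intro h
      refine ⟨?_, fun j => ?_⟩
      · have h4 := congrFun h none
        change ∑ i, (1 : k) * y i = 0 at h4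
        simpa using h4
      · exact congrFun h (some j)
    · rintro ⟨h4, h5⟩
      funext o
      rcases o with _ | j
      · change ∑ i, (1 : k) * y i = 0
        simpa using h4
      · exact h5 j
  rw [h3, Module.finrank_fintype_fun_eq_card, Fintype.card_fin] at h2
  rw [Matrix.rank, Fintype.card_option, Fintype.card_fin] at h1
  rw [h1] at h2
  rw [dd]
  omega

end

end Pool.Agent.X326.AD
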